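import Pool.Agent.Helper13.R6.SheetB

/-! Row CX of the count for rank six. -/

set_option autoImplicit false

namespace Pool.Helper13.R6

open Finset

/-- `RelP D` is an equivalence relation -/
theorem relP_equiv (D : ℕ) : Equivalence (RelP D) := by
  refine ⟨fun x => ⟨1, isCoprime_one_left, fun u => ?_⟩, ?_, ?_⟩
  · constructor <;> simp
  · rintro x y ⟨κ, hκ, h⟩
    obtain ⟨s, t, hst⟩ := hκ
    refine ⟨s, ⟨κ, t, by rw [mul_comm]; exact hst⟩, fun u => ?_⟩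
    obtain ⟨h1, h2⟩ := h u
    constructor
    · have e : x.1 u - s * y.1 u = (D : ℤ) * (t * x.1 u) - s * (y.1 u - κ * x.1 u) := by
        linear_combination (-(x.1 u)) * hst
      rw [e]
      exact dvd_sub (dvd_mul_right _ _) (h1.mul_left _)
    · have e : x.2 u - s * y.2 u = (D : ℤ) * (t * x.2 u) - s * (y.2 u - κ * x.2 u) := by
        linear_combination (-(x.2 u)) * hst
      rw [e]
      exact dvd_sub (dvd_mul_right _ _) (h2.mul_left _)
  · rintro x y z ⟨κ, hκ, h⟩ ⟨κ', hκ', h'⟩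
    refine ⟨κ' * κ, hκ'.mul_left hκ, fun u => ?_⟩
    obtain ⟨h1, h2⟩ := h u
    obtain ⟨h3, h4⟩ := h' u
    constructor
    · have e : z.1 u - κ' * κ * x.1 u = (z.1 u - κ' * y.1 u) + κ' * (y.1 u - κ * x.1 u) := by
        ring
      rw [e]
      exact dvd_add h3 (h1.mul_left _)
    · have e : z.2 u - κ' * κ * x.2 u = (z.2 u - κ' * y.2 u) + κ' * (y.2 u - κ * x.2 u) := by
        ring
      rw [e]
      exact dvd_add h4 (h2.mul_left _)

/-- at most `2 G` values of `κ` -/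
theorem kap_count (G D : ℕ) (hD : 0 < D) (x y : P6)
    (ct : ∀ m : ℤ, (∀ u, m ∣ x.1 u ∧ m ∣ x.2 u) → |m| ≤ 2 * G) (T : Finset ℤ)
    (hT : ∀ κ ∈ T, 0 ≤ κ ∧ κ < (D : ℤ) ∧ ∀ u, (D : ℤ) ∣ y.1 u - κ * x.1 u ∧
      (D : ℤ) ∣ y.2 u - κ * x.2 u) : T.card ≤ 2 * G := by
  classical
  obtain ⟨I, hI⟩ : ∃ I : Ideal ℤ, I = Ideal.span (Set.range x.1 ∪ Set.range x.2 ∪ {(D : ℤ)}) :=
    ⟨_, rfl⟩
  obtain ⟨g, hg⟩ : ∃ g : ℤ, I = Ideal.span {g} := ⟨_, (Ideal.span_singleton_generator I).symm⟩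
  have hmem : ∀ z ∈ I, g ∣ z := fun z hz => by
    rw [hg] at hz
    exact Ideal.mem_span_singleton.1 hz
  have hgI : g ∈ I := by
    rw [hg]
    exact Ideal.mem_span_singleton_self g
  have hgD : g ∣ (D : ℤ) := hmem _ (by
    rw [hI]
    exact Ideal.subset_span (Or.inr rfl))
  have hgx : |g| ≤ 2 * G := ct g fun u => ⟨hmem _ (by
    rw [hI]
    exact Ideal.subset_span (Or.inl (Or.inl ⟨u, rfl⟩))), hmem _ (by
    rw [hI]
    exact Ideal.subset_span (Or.inl (Or.inr ⟨u, rfl⟩)))⟩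
  have hD0 : (0 : ℤ) < D := by exact_mod_cast hD
  have hg0 : g ≠ 0 := by
    rintro rfl
    rw [zero_dvd_iff] at hgD
    omega
  obtain ⟨E, hE⟩ := (abs_dvd g (D : ℤ)).2 hgD
  have hgp : 0 < |g| := abs_pos.2 hg0
  have hE0 : 0 < E := by
    by_contra h
    rw [not_lt] at h
    nlinarith
  have hdiv : ∀ κ ∈ T, ∀ κ' ∈ T, E ∣ κ - κ' := by
    intro κ hκ κ' hκ'
    obtain ⟨-, -, h1⟩ := hT κ hκ
    obtain ⟨-, -, h2⟩ := hT κ' hκ'
    have h3 : (D : ℤ) ∣ (κ - κ') * g := by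
      rw [hI] at hgI
      refine Submodule.span_induction (p := fun z _ => (D : ℤ) ∣ (κ - κ') * z) ?_ ?_ ?_ ?_ hgI
      · rintro z ((⟨u, rfl⟩ | ⟨u, rfl⟩) | rfl)
        · have e : (κ - κ') * x.1 u = (y.1 u - κ' * x.1 u) - (y.1 u - κ * x.1 u) := by ring
          rw [e]
          exact dvd_sub (h2 u).1 (h1 u).1
        · have e : (κ - κ') * x.2 u = (y.2 u - κ' * x.2 u) - (y.2 u - κ * x.2 u) := by ring
          rw [e]
          exact dvd_sub (h2 u).2 (h1 u).2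
        · exact dvd_mul_left _ _
      · rw [mul_zero]
        exact dvd_zero _
      · intro z z' _ _ h4 h5
        rw [mul_add]
        exact dvd_add h4 h5
      · intro c z _ h4
        rw [smul_eq_mul, mul_left_comm]
        exact h4.mul_left _
    have h4 : (D : ℤ) ∣ (κ - κ') * |g| := by
      rcases abs_choice g with h | h
      · rw [h]
        exact h3
      · rw [h, mul_neg]
        exact (dvd_neg).2 h3
    rw [hE, mul_comm (κ - κ')] at h4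
    exact (mul_dvd_mul_iff_left hgp.ne').1 h4
  have hinj : Set.InjOn (fun κ : ℤ => κ / E) (T : Set ℤ) := by
    intro κ hκ κ' hκ' h
    obtain ⟨c, hc⟩ := hdiv κ hκ κ' hκ'
    simp only at h
    have h1 := Int.emod_add_mul_ediv κ E
    have h2 := Int.emod_add_mul_ediv κ' E
    have h3 : κ % E = κ' % E := (Int.emod_emod_of_dvd κ (dvd_refl E)) ▸
      ((Int.emod_emod_of_dvd κ' (dvd_refl E)) ▸ by
        have e : κ = κ' + E * c := by linarith
        rw [e, Int.add_mul_emod_self_left])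
    rw [← h1, ← h2, h3, h]
  have hmaps : ∀ κ ∈ T, (fun κ : ℤ => κ / E) κ ∈ Finset.Ico (0 : ℤ) |g| := by
    intro κ hκ
    obtain ⟨h1, h2, -⟩ := hT κ hκ
    rw [Finset.mem_Ico]
    refine ⟨Int.ediv_nonneg h1 hE0.le, ?_⟩
    refine Int.ediv_lt_of_lt_mul hE0 ?_
    rw [← hE]
    exact h2
  have h1 := Finset.card_le_card_of_injOn _ hmaps hinj
  rw [Int.card_Ico] at h1
  omega

/-- CX -/
theorem st_CX (hPB : ST_PB) (hCSE : ST_CSE) : ST_CX := by
  classical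
  intro a b ha hb K G ε hε
  obtain ⟨C₁, hC₁, h₁⟩ := hPB a b ha K G ε hε
  obtain ⟨C₂, hC₂, h₂⟩ := hPB b a hb K G ε hε
  refine ⟨2 * G * Real.sqrt (C₁ * C₂) + 1, by positivity, ?_⟩
  intro n ea eb eu hn h01 h12 hea heb hK S hS
  obtain ⟨Sx, hSx⟩ : ∃ Sx : Finset P6, Sx = S.image (fun t => t.2.2.1) := ⟨_, rfl⟩
  obtain ⟨Sy, hSy⟩ : ∃ Sy : Finset P6, Sy = S.image (fun t => t.2.2.2) := ⟨_, rfl⟩
  obtain ⟨DS, hDS⟩ : ∃ DS : Finset ℕ, DS = S.image (fun t => t.1) := ⟨_, rfl⟩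
  have hx : ∀ x ∈ Sx, NP a b K G n ea eu x := by
    intro x hx
    rw [hSx, mem_image] at hx
    obtain ⟨t, ht, rfl⟩ := hx
    exact (hS t ht).nx
  have hy : ∀ y ∈ Sy, NP b a K G n eb eu y := by
    intro y hy
    rw [hSy, mem_image] at hy
    obtain ⟨t, ht, rfl⟩ := hy
    exact (hS t ht).ny
  have hD : ∀ D ∈ DS, 0 < D ∧ (4 : ℤ) ^ (ea + eb) ≤ K * (D : ℤ) ^ 2 * (n : ℤ) ^ 2 := by
    intro D hD
    rw [hDS, mem_image] at hD
    obtain ⟨t, ht, rfl⟩ := hD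
    exact ⟨(hS t ht).D0, (hS t ht).Dl⟩
  have hD' : ∀ D ∈ DS, 0 < D ∧ (4 : ℤ) ^ (eb + ea) ≤ K * (D : ℤ) ^ 2 * (n : ℤ) ^ 2 := by
    rw [add_comm eb ea]
    exact hD
  have P₁ := h₁ n ea eb eu hn h01 h12 heb hea hK Sx hx DS hD
  have P₂ := h₂ n eb ea eu hn h01 h12 hea heb hK Sy hy DS hD'
  -- the counts
  let X : ℕ → ℕ := fun D => Nat.card {p : P6 × P6 // p.1 ∈ Sx ∧ p.2 ∈ Sx ∧ (D : ℤ) ∣ qf b p.1 ∧
      (D : ℤ) ∣ qf b p.2 ∧ RelP D p.1 p.2}
  let Y : ℕ → ℕ := fun D => Nat.card {p : P6 × P6 // p.1 ∈ Sy ∧ p.2 ∈ Sy ∧ (D : ℤ) ∣ qf a p.1 ∧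
      (D : ℤ) ∣ qf a p.2 ∧ RelP D p.1 p.2}
  let N : ℕ → ℕ := fun D => ((Sx ×ˢ Sy).filter fun p => (D : ℤ) ∣ qf b p.1 ∧
      (D : ℤ) ∣ qf a p.2 ∧ RelP D p.1 p.2).card
  have hN : ∀ D, (N D) ^ 2 ≤ X D * Y D := by
    intro D
    have h := hCSE P6 (RelP D) (relP_equiv D) (Sx.filter fun x => (D : ℤ) ∣ qf b x)
      (Sy.filter fun y => (D : ℤ) ∣ qf a y)
    have e1 : N D = Nat.card {p : P6 × P6 // p.1 ∈ Sx.filter (fun x => (D : ℤ) ∣ qf b x) ∧
        p.2 ∈ Sy.filter (fun y => (D : ℤ) ∣ qf a y) ∧ RelP D p.1 p.2} := by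
      refine (Nat.subtype_card _ fun p => ?_).symm
      simp only [mem_filter, mem_product]
      tauto
    have e2 : X D = Nat.card {p : P6 × P6 // p.1 ∈ Sx.filter (fun x => (D : ℤ) ∣ qf b x) ∧
        p.2 ∈ Sx.filter (fun x => (D : ℤ) ∣ qf b x) ∧ RelP D p.1 p.2} := by
      refine Nat.card_congr (Equiv.subtypeEquivRight fun p => ?_)
      simp only [mem_filter]
      tauto
    have e3 : Y D = Nat.card {p : P6 × P6 // p.1 ∈ Sy.filter (fun y => (D : ℤ) ∣ qf a y) ∧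
        p.2 ∈ Sy.filter (fun y => (D : ℤ) ∣ qf a y) ∧ RelP D p.1 p.2} := by
      refine Nat.card_congr (Equiv.subtypeEquivRight fun p => ?_)
      simp only [mem_filter]
      tauto
    rw [e1, e2, e3]
    exact h
  -- the tuples and the pairs
  obtain ⟨T, hT⟩ : ∃ T : Finset (ℕ × P6 × P6), T = S.image (fun t => (t.1, t.2.2.1, t.2.2.2)) :=
    ⟨_, rfl⟩
  have hST : S.card ≤ 2 * G * T.card := by
    rw [hT]
    refine Finset.card_le_mul_card_image S (2 * G) ?_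
    intro q hq
    rw [mem_image] at hq
    obtain ⟨t, ht, htq⟩ := hq
    have hinj : Set.InjOn (fun t : ℕ × ℤ × P6 × P6 => t.2.1)
        ((S.filter fun t => (t.1, t.2.2.1, t.2.2.2) = q : Finset _) : Set (ℕ × ℤ × P6 × P6)) := by
      rintro ⟨D, κ, x, y⟩ h1 ⟨D', κ', x', y'⟩ h2 h3
      have h1' := (mem_filter.1 (mem_coe.1 h1)).2
      have h2' := (mem_filter.1 (mem_coe.1 h2)).2
      simp only at h1' h2' h3
      rw [← h2'] at h1'
      simp only [Prod.mk.injEq] at h1'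
      obtain ⟨rfl, rfl, rfl⟩ := h1'
      rw [h3]
    rw [← Finset.card_image_of_injOn hinj]
    refine kap_count G t.1 (hS t ht).D0 t.2.2.1 t.2.2.2 (hS t ht).nx.ct _ ?_
    intro κ hκ
    rw [mem_image] at hκ
    obtain ⟨t', ht', rfl⟩ := hκ
    rw [mem_filter] at ht'
    obtain ⟨ht', e⟩ := ht'
    rw [← htq] at e
    simp only [Prod.mk.injEq] at e
    obtain ⟨e1, e2, e3⟩ := e
    have h4 := hS t' ht'
    refine ⟨h4.k0, ?_, ?_⟩
    · rw [← e1]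
      exact h4.k1
    · rw [← e1, ← e2, ← e3]
      exact h4.cg
  have hTN : T.card ≤ ∑ D ∈ DS, N D := by
    rw [Finset.card_eq_sum_card_fiberwise (f := fun q : ℕ × P6 × P6 => q.1) (t := DS)]
    · refine sum_le_sum fun D _ => ?_
      refine Finset.card_le_card_of_injOn (fun q : ℕ × P6 × P6 => q.2) ?_ ?_
      · rintro ⟨D', x, y⟩ hq
        rw [mem_coe, mem_filter, hT, mem_image] at hq
        obtain ⟨⟨t, ht, e⟩, e'⟩ := hq
        simp only [Prod.mk.injEq] at e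
        obtain ⟨e1, e2, e3⟩ := e
        simp only at e'
        subst e'
        subst e1 e2 e3
        have h4 := hS t ht
        rw [mem_coe, mem_filter, mem_product, hSx, hSy]
        exact ⟨⟨mem_image_of_mem _ ht, mem_image_of_mem _ ht⟩, h4.dx, h4.dy, t.2.1, h4.kc, h4.cg⟩
      · rintro ⟨D', x, y⟩ h1 ⟨D'', x', y'⟩ h2 h3
        have h1' := (mem_filter.1 (mem_coe.1 h1)).2
        have h2' := (mem_filter.1 (mem_coe.1 h2)).2
        simp only at h1' h2' h3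
        rw [h1', h2', h3]
    · rintro ⟨D', x, y⟩ hq
      rw [mem_coe, hT, mem_image] at hq
      obtain ⟨t, ht, e⟩ := hq
      simp only [Prod.mk.injEq] at e
      rw [mem_coe, hDS, mem_image]
      exact ⟨t, ht, e.1⟩
  -- Cauchy-Schwarz
  have hs : ((∑ D ∈ DS, N D : ℕ) : ℝ) ≤ Real.sqrt (((∑ D ∈ DS, X D : ℕ) : ℝ)) *
      Real.sqrt (((∑ D ∈ DS, Y D : ℕ) : ℝ)) := by
    push_cast
    refine le_trans ?_ (Real.sum_sqrt_mul_sqrt_le DS (f := fun D => (X D : ℝ))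
      (g := fun D => (Y D : ℝ)) (fun D => by positivity) (fun D => by positivity))
    refine sum_le_sum fun D _ => ?_
    rw [← Real.sqrt_mul (by positivity)]
    refine Real.le_sqrt_of_sq_le ?_
    exact_mod_cast hN D
  have hn0 : (0 : ℝ) < (n : ℝ) ^ (4 + ε) := Real.rpow_pos_of_pos (by exact_mod_cast hn) _
  have hXY : Real.sqrt (((∑ D ∈ DS, X D : ℕ) : ℝ)) * Real.sqrt (((∑ D ∈ DS, Y D : ℕ) : ℝ)) ≤
      Real.sqrt (C₁ * C₂) * (n : ℝ) ^ (4 + ε) := by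
    rw [← Real.sqrt_mul (by positivity)]
    refine Real.sqrt_le_iff.2 ⟨by positivity, ?_⟩
    rw [mul_pow, Real.sq_sqrt (by positivity)]
    calc ((∑ D ∈ DS, X D : ℕ) : ℝ) * ((∑ D ∈ DS, Y D : ℕ) : ℝ)
        ≤ (C₁ * (n : ℝ) ^ (4 + ε) * 4 ^ (2 * ea) / 4 ^ (2 * eb)) *
          (C₂ * (n : ℝ) ^ (4 + ε) * 4 ^ (2 * eb) / 4 ^ (2 * ea)) :=
          mul_le_mul P₁ P₂ (by positivity) (by positivity)
      _ = C₁ * C₂ * ((n : ℝ) ^ (4 + ε)) ^ 2 := by
          field_simp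
  calc (S.card : ℝ) ≤ ((2 * G * T.card : ℕ) : ℝ) := by exact_mod_cast hST
    _ = 2 * G * (T.card : ℝ) := by push_cast; ring
    _ ≤ 2 * G * (Real.sqrt (C₁ * C₂) * (n : ℝ) ^ (4 + ε)) := by
        refine mul_le_mul_of_nonneg_left ?_ (by positivity)
        have h5 : (T.card : ℝ) ≤ ((∑ D ∈ DS, N D : ℕ) : ℝ) := by exact_mod_cast hTN
        exact h5.trans (hs.trans hXY)
    _ ≤ (2 * G * Real.sqrt (C₁ * C₂) + 1) * (n : ℝ) ^ (4 + ε) := by
        rw [add_mul, one_mul, ← mul_assoc]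
        linarith

end Pool.Helper13.R6
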